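import Mathlib

/-!
# Lower bound for the spectrum of the matrix `O` of a coherent configuration

We prove that for every coherent configuration on `n ≥ 2` points every eigenvalue of the
matrix `O` is at least `n / (n - 1)`.
-/

namespace Pool.Agent.Results.MP_d5c33c_co.SpectrumBound

open Finset

/-- A coherent configuration on the finite set `X` with set of colors `S`: the partition of
`X × X` is given by the color `col x y` of each pair; every color is nonempty, the diagonal is a
union of colors, the transpose of a color is a color, and the number of `z` with `(x, z)` of color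
`a` and `(z, y)` of color `b` depends only on `a`, `b` and the color of `(x, y)`; it is
`p c a b` when that color is `c`. -/
structure CoherentConfiguration (X S : Type*) [Fintype X] [DecidableEq S] where
  /-- the color of a pair -/
  col : X → X → S
  /-- every color is nonempty -/
  col_surj : ∀ a : S, ∃ x y : X, col x y = a
  /-- the diagonal is a union of colors -/
  diag : ∀ x y z : X, col y z = col x x → y = z
  /-- the transpose of a color -/
  tr : S → S
  /-- the transpose of a color is a color -/
  col_tr : ∀ x y : X, col y x = tr (col x y)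
  /-- the intersection numbers -/
  p : S → S → S → ℕ
  /-- the intersection numbers count paths of length two -/
  p_spec : ∀ (a b : S) (x y : X),
    (univ.filter fun z : X => col x z = a ∧ col z y = b).card = p (col x y) a b

namespace CoherentConfiguration

variable {X S : Type*} [Fintype X] [DecidableEq S] (C : CoherentConfiguration X S)

/-- The valency of the color `a`: the number of `z` with `(x, z)` of color `a`, where `x` is a
point (chosen once and for all) having at least one such `z`. -/
noncomputable def valency (a : S) : ℕ :=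
  (univ.filter fun z : X => C.col (C.col_surj a).choose z = a).card

/-- The numbers `∇̃^c_{ab} = √(k_c / (k_a k_b)) · p^c_{ab}`. -/
noncomputable def nabla (c a b : S) : ℝ :=
  Real.sqrt ((C.valency c : ℝ) / ((C.valency a : ℝ) * (C.valency b : ℝ))) * (C.p c a b : ℝ)

/-- The matrix `O_{a,b} = ∑_{p,q} ∇̃^a_{pq} ∇̃^b_{pq}`. -/
noncomputable def O [Fintype S] : Matrix S S ℝ :=
  Matrix.of fun a b => ∑ p : S, ∑ q : S, C.nabla a p q * C.nabla b p q

/-! ### Basic facts -/

lemma src_diag {x y x' y' : X} (h : C.col x y = C.col x' y') : C.col x' x' = C.col x x := by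
  have h1 := C.p_spec (C.col x x) (C.col x y) x y
  have h2 := C.p_spec (C.col x x) (C.col x y) x' y'
  rw [← h, ← h1] at h2
  have hpos : 0 < (univ.filter fun z : X => C.col x z = C.col x x ∧ C.col z y = C.col x y).card :=
    card_pos.mpr ⟨x, by simp⟩
  rw [← h2] at hpos
  obtain ⟨z, hz⟩ := card_pos.mp hpos
  simp only [mem_filter, mem_univ, true_and] at hz
  have := C.diag x x' z hz.1
  rw [← this] at hz
  exact hz.1

lemma out_eq (x : X) (a : S) :
    (univ.filter fun z : X => C.col x z = a).card = C.p (C.col x x) a (C.tr a) := by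
  rw [← C.p_spec]
  congr 1
  ext z
  simp only [mem_filter, mem_univ, true_and]
  constructor
  · intro h
    exact ⟨h, by rw [C.col_tr x z, h]⟩
  · intro h
    exact h.1

lemma out_eq_valency {x y : X} {a : S} (h : C.col x y = a) :
    (univ.filter fun z : X => C.col x z = a).card = C.valency a := by
  unfold valency
  rw [C.out_eq, C.out_eq]
  obtain ⟨y', hy'⟩ := (C.col_surj a).choose_spec
  rw [C.src_diag (h.trans hy'.symm)]

lemma exists_of_diag {x x' : X} (h : C.col x x = C.col x' x') (y : X) :
    ∃ y', C.col x' y' = C.col x y := by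
  have h1 := C.out_eq x (C.col x y)
  have h2 := C.out_eq x' (C.col x y)
  rw [← h, ← h1] at h2
  have hpos : 0 < (univ.filter fun z : X => C.col x z = C.col x y).card :=
    card_pos.mpr ⟨y, by simp⟩
  rw [← h2] at hpos
  obtain ⟨z, hz⟩ := card_pos.mp hpos
  exact ⟨z, by simpa using hz⟩

lemma valency_pos (a : S) : 0 < C.valency a := by
  obtain ⟨x, y, h⟩ := C.col_surj a
  rw [← C.out_eq_valency h]
  exact card_pos.mpr ⟨y, by simp [h]⟩

lemma valency_diag (x : X) : C.valency (C.col x x) = 1 := by
  rw [← C.out_eq_valency (rfl : C.col x x = C.col x x), card_eq_one]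
  refine ⟨x, ?_⟩
  ext z
  simp only [mem_filter, mem_univ, true_and, mem_singleton]
  constructor
  · intro h
    exact (C.diag x x z h).symm
  · rintro rfl
    rfl

/-- Counting triangles in two ways. -/
lemma triangle (x z : X) (a q : S) :
    C.valency a * C.p a (C.col x z) q =
      C.valency (C.col x z) * (univ.filter fun y : X => C.col x y = a ∧ C.col z y = q).card := by
  have hconst : ∀ z' : X, C.col x z' = C.col x z →
      (univ.filter fun y : X => C.col x y = a ∧ C.col z' y = q).card =
      (univ.filter fun y : X => C.col x y = a ∧ C.col z y = q).card := by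
    intro z' hz'
    have key : ∀ w : X, (univ.filter fun y : X => C.col x y = a ∧ C.col w y = q).card =
        C.p (C.col x w) a (C.tr q) := by
      intro w
      rw [← C.p_spec]
      congr 1
      ext y
      simp only [mem_filter, mem_univ, true_and]
      constructor
      · rintro ⟨h1, h2⟩
        exact ⟨h1, by rw [C.col_tr w y, h2]⟩
      · rintro ⟨h1, h2⟩
        refine ⟨h1, ?_⟩
        have h3 : C.col w y = C.tr (C.col y w) := C.col_tr y w
        rw [h2] at h3
        have h4 : C.tr (C.tr q) = q := by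
          obtain ⟨u, v, huv⟩ := C.col_surj q
          rw [← huv, ← C.col_tr, ← C.col_tr]
        rw [h3, h4]
    rw [key, key, hz']
  by_cases ha : ∃ y, C.col x y = a
  · obtain ⟨y0, hy0⟩ := ha
    have h1 : ∑ y ∈ univ.filter (fun y : X => C.col x y = a),
        (univ.filter fun z' : X => C.col x z' = C.col x z ∧ C.col z' y = q).card =
        ∑ z' ∈ univ.filter (fun z' : X => C.col x z' = C.col x z),
        (univ.filter fun y : X => C.col x y = a ∧ C.col z' y = q).card := by
      simp only [card_filter, sum_filter]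
      have e1 : ∀ y : X, (if C.col x y = a then ∑ z' : X,
          (if C.col x z' = C.col x z ∧ C.col z' y = q then 1 else 0) else 0) =
          ∑ z' : X, (if C.col x y = a ∧ C.col x z' = C.col x z ∧ C.col z' y = q then 1 else 0) := by
        intro y
        split_ifs with h
        · simp [h]
        · simp [h]
      have e2 : ∀ z' : X, (if C.col x z' = C.col x z then ∑ y : X,
          (if C.col x y = a ∧ C.col z' y = q then 1 else 0) else 0) =
          ∑ y : X, (if C.col x y = a ∧ C.col x z' = C.col x z ∧ C.col z' y = q then 1 else 0) := by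
        intro z'
        split_ifs with h
        · simp [h]
        · simp [h]
      rw [sum_congr rfl (fun y _ => e1 y), sum_congr rfl (fun z' _ => e2 z'), sum_comm]
    have h2 : ∑ y ∈ univ.filter (fun y : X => C.col x y = a),
        (univ.filter fun z' : X => C.col x z' = C.col x z ∧ C.col z' y = q).card =
        C.valency a * C.p a (C.col x z) q := by
      rw [sum_congr rfl (g := fun _ => C.p a (C.col x z) q)]
      · rw [sum_const, C.out_eq_valency hy0, smul_eq_mul]
      · intro y hy
        rw [C.p_spec]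
        simp only [mem_filter, mem_univ, true_and] at hy
        rw [hy]
    have h3 : ∑ z' ∈ univ.filter (fun z' : X => C.col x z' = C.col x z),
        (univ.filter fun y : X => C.col x y = a ∧ C.col z' y = q).card =
        C.valency (C.col x z) *
          (univ.filter fun y : X => C.col x y = a ∧ C.col z y = q).card := by
      rw [sum_congr rfl (g := fun _ =>
        (univ.filter fun y : X => C.col x y = a ∧ C.col z y = q).card)]
      · rw [sum_const, C.out_eq_valency rfl, smul_eq_mul]
      · intro z' hz'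
        simp only [mem_filter, mem_univ, true_and] at hz'
        exact hconst z' hz'
    rw [← h2, h1, h3]
  · have h1 : (univ.filter fun y : X => C.col x y = a ∧ C.col z y = q).card = 0 := by
      rw [card_eq_zero, filter_eq_empty_iff]
      intro y _ hy
      exact ha ⟨y, hy.1⟩
    have h2 : C.p a (C.col x z) q = 0 := by
      by_contra hne
      obtain ⟨x1, y1, h1⟩ := C.col_surj a
      have h3 := C.p_spec (C.col x z) q x1 y1
      rw [h1] at h3
      have hpos : 0 < (univ.filter fun z1 : X =>
          C.col x1 z1 = C.col x z ∧ C.col z1 y1 = q).card := by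
        rw [h3]; exact Nat.pos_of_ne_zero hne
      obtain ⟨z1, hz1⟩ := card_pos.mp hpos
      simp only [mem_filter, mem_univ, true_and] at hz1
      have h4 := C.src_diag hz1.1
      obtain ⟨y', hy'⟩ := C.exists_of_diag h4.symm y1
      exact ha ⟨y', hy'.trans h1⟩
    rw [h1, h2, mul_zero, mul_zero]

/-- The size of the fiber of `x`. -/
noncomputable def m (x : X) : ℕ := (univ.filter fun x' : X => C.col x' x' = C.col x x).card

lemma m_pos (x : X) : 0 < C.m x := card_pos.mpr ⟨x, by simp⟩

/-- A sum over the colors as a weighted sum over the points. -/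
lemma sum_colors [Fintype S] (F : S → ℝ) :
    ∑ a, F a = ∑ x : X, (1 / (C.m x : ℝ)) * ∑ z : X, F (C.col x z) / (C.valency (C.col x z) : ℝ) := by
  have h1 : ∀ x : X, ∑ z : X, F (C.col x z) / (C.valency (C.col x z) : ℝ) =
      ∑ a : S, ∑ z ∈ univ.filter (fun z => C.col x z = a), F a / (C.valency a : ℝ) := by
    intro x
    rw [← sum_fiberwise (s := univ) (g := fun z => C.col x z)]
    refine sum_congr rfl fun a _ => sum_congr rfl fun z hz => ?_
    simp only [mem_filter, mem_univ, true_and] at hz
    rw [hz]
  simp_rw [h1, mul_sum]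
  rw [sum_comm]
  refine sum_congr rfl fun a _ => ?_
  obtain ⟨x0, y0, h0⟩ := C.col_surj a
  have hk : (C.valency a : ℝ) ≠ 0 := by exact_mod_cast (C.valency_pos a).ne'
  have hm : (C.m x0 : ℝ) ≠ 0 := by exact_mod_cast (C.m_pos x0).ne'
  have h2 : ∀ x : X, ∑ z ∈ univ.filter (fun z => C.col x z = a),
      1 / (C.m x : ℝ) * (F a / (C.valency a : ℝ)) =
      if C.col x x = C.col x0 x0 then F a / (C.m x0 : ℝ) else 0 := by
    intro x
    rw [sum_const, nsmul_eq_mul]
    split_ifs with h
    · obtain ⟨y', hy'⟩ := C.exists_of_diag h.symm y0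
      rw [C.out_eq_valency (hy'.trans h0)]
      have : C.m x = C.m x0 := by unfold m; rw [h]
      rw [this]
      field_simp
    · have : univ.filter (fun z => C.col x z = a) = ∅ := by
        rw [filter_eq_empty_iff]
        intro z _ hz
        exact h (C.src_diag (h0.trans hz.symm))
      rw [this]
      simp
  rw [sum_congr rfl fun x _ => h2 x, ← sum_filter, sum_const, nsmul_eq_mul]
  change F a = (C.m x0 : ℝ) * (F a / (C.m x0 : ℝ))
  field_simp

/-! ### The main inequality -/

/-- The function `v(y) = c_{col x y} / √k_{col x y}`. -/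
noncomputable def vec (c : S → ℝ) (x y : X) : ℝ :=
  c (C.col x y) / Real.sqrt (C.valency (C.col x y) : ℝ)

/-- The sum of `vec` over the `y` with `(z, y)` of color `q`. -/
noncomputable def G (c : S → ℝ) (x z : X) (q : S) : ℝ :=
  ∑ y ∈ univ.filter (fun y => C.col z y = q), C.vec c x y

lemma coef_eq [Fintype S] (c : S → ℝ) (x z : X) (q : S) :
    ∑ a, c a * C.nabla a (C.col x z) q =
      Real.sqrt ((C.valency (C.col x z) : ℝ) / (C.valency q : ℝ)) * C.G c x z q := by
  have hG : C.G c x z q = ∑ a : S, c a / Real.sqrt (C.valency a : ℝ) *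
      ((univ.filter fun y : X => C.col x y = a ∧ C.col z y = q).card : ℝ) := by
    unfold G
    rw [← sum_fiberwise (s := univ.filter (fun y => C.col z y = q)) (g := fun y => C.col x y)]
    refine sum_congr rfl fun a _ => ?_
    rw [filter_filter]
    have : univ.filter (fun y => C.col z y = q ∧ C.col x y = a) =
        univ.filter (fun y => C.col x y = a ∧ C.col z y = q) := by
      ext y; simp [and_comm]
    rw [this, mul_comm, ← nsmul_eq_mul, ← sum_const]
    refine sum_congr rfl fun y hy => ?_
    simp only [mem_filter, mem_univ, true_and] at hy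
    unfold vec
    rw [hy.1]
  rw [hG, mul_sum]
  refine sum_congr rfl fun a _ => ?_
  have ht := C.triangle x z a q
  have ht' : (C.valency a : ℝ) * (C.p a (C.col x z) q : ℝ) = (C.valency (C.col x z) : ℝ) *
      ((univ.filter fun y : X => C.col x y = a ∧ C.col z y = q).card : ℝ) := by
    exact_mod_cast ht
  have ka : (0 : ℝ) < (C.valency a : ℝ) := by exact_mod_cast C.valency_pos a
  have kp : (0 : ℝ) < (C.valency (C.col x z) : ℝ) := by exact_mod_cast C.valency_pos _
  have kq : (0 : ℝ) < (C.valency q : ℝ) := by exact_mod_cast C.valency_pos q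
  unfold nabla
  rw [Real.sqrt_div ka.le, Real.sqrt_mul kp.le, Real.sqrt_div kp.le]
  set A := Real.sqrt (C.valency a : ℝ) with hA
  set P := Real.sqrt (C.valency (C.col x z) : ℝ) with hP
  set Q := Real.sqrt (C.valency q : ℝ) with hQ
  have hA0 : 0 < A := Real.sqrt_pos.mpr ka
  have hP0 : 0 < P := Real.sqrt_pos.mpr kp
  have hQ0 : 0 < Q := Real.sqrt_pos.mpr kq
  have hA2 : (C.valency a : ℝ) = A ^ 2 := (Real.sq_sqrt ka.le).symm
  have hP2 : (C.valency (C.col x z) : ℝ) = P ^ 2 := (Real.sq_sqrt kp.le).symm
  rw [hA2, hP2] at ht'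
  field_simp
  linear_combination c a * ht'

lemma coef_sq [Fintype S] (c : S → ℝ) (x z : X) (q : S) :
    (∑ a, c a * C.nabla a (C.col x z) q) ^ 2 / (C.valency (C.col x z) : ℝ) =
      C.G c x z q ^ 2 / (C.valency q : ℝ) := by
  have kp : (0 : ℝ) < (C.valency (C.col x z) : ℝ) := by exact_mod_cast C.valency_pos _
  have kq : (0 : ℝ) < (C.valency q : ℝ) := by exact_mod_cast C.valency_pos q
  rw [coef_eq, mul_pow, Real.sq_sqrt (by positivity)]
  field_simp

/-- For fixed `x` and `z`: the contribution of `z` to the quadratic form. -/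
lemma point_bound [Fintype S] (hn : 2 ≤ Fintype.card X) (c : S → ℝ) (x z : X) :
    C.vec c x z ^ 2 + (∑ y, C.vec c x y - C.vec c x z) ^ 2 / ((Fintype.card X : ℝ) - 1) ≤
      ∑ q : S, C.G c x z q ^ 2 / (C.valency q : ℝ) := by
  have hn1 : (0 : ℝ) < (Fintype.card X : ℝ) - 1 := by
    have : (2 : ℝ) ≤ (Fintype.card X : ℝ) := by exact_mod_cast hn
    linarith
  set d := C.col z z with hd
  have hGd : C.G c x z d = C.vec c x z := by
    unfold G
    have : univ.filter (fun y => C.col z y = d) = {z} := by
      ext y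
      simp only [mem_filter, mem_univ, true_and, mem_singleton]
      constructor
      · intro h
        exact (C.diag z z y h).symm
      · rintro rfl
        rfl
    rw [this, sum_singleton]
  have hsumG : ∑ q : S, C.G c x z q = ∑ y, C.vec c x y := by
    unfold G
    rw [sum_fiberwise]
  have hsumk : ∑ q : S, ((univ.filter fun y : X => C.col z y = q).card : ℝ) =
      (Fintype.card X : ℝ) := by
    have := card_eq_sum_card_fiberwise (s := (univ : Finset X)) (t := (univ : Finset S))
      (f := fun y => C.col z y) (fun y _ => mem_univ _)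
    rw [card_univ] at this
    rw [this]
    push_cast
    rfl
  set T := ∑ y, C.vec c x y with hT
  set t := (T - C.vec c x z) / ((Fintype.card X : ℝ) - 1) with ht
  have hq : ∀ q : S, 2 * t * C.G c x z q -
      t ^ 2 * ((univ.filter fun y : X => C.col z y = q).card : ℝ) ≤
      C.G c x z q ^ 2 / (C.valency q : ℝ) := by
    intro q
    have kq : (0 : ℝ) < (C.valency q : ℝ) := by exact_mod_cast C.valency_pos q
    by_cases h : ∃ y, C.col z y = q
    · obtain ⟨y, hy⟩ := h
      rw [C.out_eq_valency hy, le_div_iff₀ kq]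
      nlinarith [sq_nonneg (C.G c x z q - t * (C.valency q : ℝ))]
    · have he : univ.filter (fun y => C.col z y = q) = ∅ := by
        rw [filter_eq_empty_iff]
        intro y _ hy
        exact h ⟨y, hy⟩
      have hG0 : C.G c x z q = 0 := by
        unfold G
        rw [he, sum_empty]
      rw [hG0, he]
      simp
  have hsplit : ∑ q : S, C.G c x z q ^ 2 / (C.valency q : ℝ) =
      C.vec c x z ^ 2 + ∑ q ∈ univ.erase d, C.G c x z q ^ 2 / (C.valency q : ℝ) := by
    rw [← add_sum_erase univ _ (mem_univ d), hGd, hd, C.valency_diag]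
    simp
  have hsplit1 : ∑ q ∈ univ.erase d, C.G c x z q = T - C.vec c x z := by
    rw [← hsumG, ← add_sum_erase univ _ (mem_univ d), hGd]
    ring
  have hsplit2 : ∑ q ∈ univ.erase d, ((univ.filter fun y : X => C.col z y = q).card : ℝ) =
      (Fintype.card X : ℝ) - 1 := by
    rw [← hsumk, ← add_sum_erase univ _ (mem_univ d), C.out_eq_valency hd.symm, hd,
      C.valency_diag]
    push_cast
    ring
  have hfin : ∑ q ∈ univ.erase d, (2 * t * C.G c x z q -
      t ^ 2 * ((univ.filter fun y : X => C.col z y = q).card : ℝ)) =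
      (T - C.vec c x z) ^ 2 / ((Fintype.card X : ℝ) - 1) := by
    rw [sum_sub_distrib, ← mul_sum, ← mul_sum, hsplit1, hsplit2, ht]
    field_simp
    ring
  rw [hsplit, ← hfin]
  gcongr with q _
  exact hq q

/-- For fixed `x`: the sum over all `z`. -/
lemma row_bound [Fintype S] (hn : 2 ≤ Fintype.card X) (c : S → ℝ) (x : X) :
    (Fintype.card X : ℝ) / ((Fintype.card X : ℝ) - 1) * ∑ z, C.vec c x z ^ 2 ≤
      ∑ z, ∑ q : S, C.G c x z q ^ 2 / (C.valency q : ℝ) := by
  have h2 : (2 : ℝ) ≤ (Fintype.card X : ℝ) := by exact_mod_cast hn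
  have hn1 : (0 : ℝ) < (Fintype.card X : ℝ) - 1 := by linarith
  refine le_trans ?_ (sum_le_sum fun z _ => C.point_bound hn c x z)
  set T := ∑ y, C.vec c x y with hT
  rw [sum_add_distrib, ← sum_div]
  have h3 : ∑ z, (T - C.vec c x z) ^ 2 =
      ((Fintype.card X : ℝ) - 2) * T ^ 2 + ∑ z, C.vec c x z ^ 2 := by
    have : ∀ z, (T - C.vec c x z) ^ 2 = T ^ 2 - 2 * T * C.vec c x z + C.vec c x z ^ 2 := by
      intro z; ring
    rw [sum_congr rfl fun z _ => this z, sum_add_distrib, sum_sub_distrib, ← mul_sum, ← hT,
      sum_const, card_univ, nsmul_eq_mul]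
    ring
  rw [h3]
  have h4 : 0 ≤ ((Fintype.card X : ℝ) - 2) * T ^ 2 := by
    apply mul_nonneg
    · linarith
    · positivity
  set Q := ∑ z, C.vec c x z ^ 2 with hQ
  rw [← sub_nonneg]
  have : Q + (((Fintype.card X : ℝ) - 2) * T ^ 2 + Q) / ((Fintype.card X : ℝ) - 1) -
      (Fintype.card X : ℝ) / ((Fintype.card X : ℝ) - 1) * Q =
      ((Fintype.card X : ℝ) - 2) * T ^ 2 / ((Fintype.card X : ℝ) - 1) := by
    field_simp
    ring
  rw [this]
  positivity

/-- The quadratic form of `O`. -/
lemma form_eq [Fintype S] (c : S → ℝ) :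
    c ⬝ᵥ (C.O.mulVec c) = ∑ p : S, ∑ q : S, (∑ a, c a * C.nabla a p q) ^ 2 := by
  have h1 : c ⬝ᵥ (C.O.mulVec c) = ∑ a, ∑ b, ∑ p : S, ∑ q : S,
      (c a * C.nabla a p q) * (c b * C.nabla b p q) := by
    simp only [dotProduct, Matrix.mulVec, O, Matrix.of_apply, mul_sum, sum_mul]
    refine sum_congr rfl fun a _ => sum_congr rfl fun b _ => sum_congr rfl fun p _ =>
      sum_congr rfl fun q _ => ?_
    ring
  have h2 : ∀ p q : S, (∑ a, c a * C.nabla a p q) ^ 2 =
      ∑ a, ∑ b, (c a * C.nabla a p q) * (c b * C.nabla b p q) := by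
    intro p q
    rw [sq, sum_mul_sum]
  rw [h1]
  simp_rw [h2]
  calc ∑ a, ∑ b, ∑ p : S, ∑ q : S, (c a * C.nabla a p q) * (c b * C.nabla b p q)
      = ∑ a, ∑ p : S, ∑ b, ∑ q : S, (c a * C.nabla a p q) * (c b * C.nabla b p q) :=
        sum_congr rfl fun a _ => sum_comm
    _ = ∑ p : S, ∑ a, ∑ b, ∑ q : S, (c a * C.nabla a p q) * (c b * C.nabla b p q) := sum_comm
    _ = ∑ p : S, ∑ a, ∑ q : S, ∑ b, (c a * C.nabla a p q) * (c b * C.nabla b p q) :=
        sum_congr rfl fun p _ => sum_congr rfl fun a _ => sum_comm
    _ = ∑ p : S, ∑ q : S, ∑ a, ∑ b, (c a * C.nabla a p q) * (c b * C.nabla b p q) :=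
        sum_congr rfl fun p _ => sum_comm

/-- The main inequality for the quadratic form. -/
lemma form_bound [Fintype S] (hn : 2 ≤ Fintype.card X) (c : S → ℝ) :
    (Fintype.card X : ℝ) / ((Fintype.card X : ℝ) - 1) * (c ⬝ᵥ c) ≤ c ⬝ᵥ (C.O.mulVec c) := by
  rw [C.form_eq, C.sum_colors (fun p => ∑ q : S, (∑ a, c a * C.nabla a p q) ^ 2)]
  have hc : c ⬝ᵥ c = ∑ a, c a ^ 2 := by
    simp only [dotProduct]
    exact sum_congr rfl fun a _ => (sq (c a)).symm
  rw [hc, C.sum_colors (fun a => c a ^ 2), mul_sum]
  refine sum_le_sum fun x _ => ?_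
  have h1 : ∑ z, c (C.col x z) ^ 2 / (C.valency (C.col x z) : ℝ) = ∑ z, C.vec c x z ^ 2 := by
    refine sum_congr rfl fun z _ => ?_
    unfold vec
    rw [div_pow, Real.sq_sqrt (by positivity)]
  have h2 : ∑ z, (∑ q : S, (∑ a, c a * C.nabla a (C.col x z) q) ^ 2) /
      (C.valency (C.col x z) : ℝ) = ∑ z, ∑ q : S, C.G c x z q ^ 2 / (C.valency q : ℝ) := by
    refine sum_congr rfl fun z _ => ?_
    rw [sum_div]
    exact sum_congr rfl fun q _ => C.coef_sq c x z q
  rw [h1, h2]
  have h3 := C.row_bound hn c x
  have h4 : (0 : ℝ) ≤ 1 / (C.m x : ℝ) := by positivity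
  calc (Fintype.card X : ℝ) / ((Fintype.card X : ℝ) - 1) *
        (1 / (C.m x : ℝ) * ∑ z, C.vec c x z ^ 2)
      = 1 / (C.m x : ℝ) * ((Fintype.card X : ℝ) / ((Fintype.card X : ℝ) - 1) *
        ∑ z, C.vec c x z ^ 2) := by ring
    _ ≤ _ := mul_le_mul_of_nonneg_left h3 h4

end CoherentConfiguration

/-- For every coherent configuration on `n ≥ 2` points, every eigenvalue of the matrix `O` is at
least `n / (n - 1)`. -/
theorem result {X S : Type*} [Fintype X] [Fintype S] [DecidableEq S]
    (C : CoherentConfiguration X S) (hn : 2 ≤ Fintype.card X) (μ : ℝ)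
    (hμ : Module.End.HasEigenvalue (Matrix.toLin' C.O) μ) :
    (Fintype.card X : ℝ) / ((Fintype.card X : ℝ) - 1) ≤ μ := by
  obtain ⟨c, hc⟩ := hμ.exists_hasEigenvector
  have h1 : C.O.mulVec c = μ • c := by
    have := hc.apply_eq_smul
    rwa [Matrix.toLin'_apply] at this
  have h2 := C.form_bound hn c
  rw [h1, dotProduct_smul, smul_eq_mul] at h2
  have h3 : 0 < c ⬝ᵥ c := by
    have h4 : 0 ≤ c ⬝ᵥ c := by
      simp only [dotProduct]
      exact sum_nonneg fun a _ => mul_self_nonneg _
    refine lt_of_le_of_ne h4 ?_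
    intro h5
    apply hc.2
    exact dotProduct_self_eq_zero.mp h5.symm
  exact le_of_mul_le_mul_right h2 h3

end Pool.Agent.Results.MP_d5c33c_co.SpectrumBound
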